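import Pool.Agent.Work.MP_db9399_lh.Base
import Pool.Agent.Work.MP_db9399_lc_helper54.NDEC

/-! THEOREM LCH, block NDEC: the near-decomposition (FAC once for every pair of cells and every
type); modification of the block NDEC of THEOREM LC by helper54. -/

set_option autoImplicit false

namespace Pool.Agent.Work.MP_db9399_lh.helper22

open Finset Classical
open Pool.Agent.Work.MP_db9399_all (nb)
open Pool.Agent.Work.MP_db9399_dn (IsMat)
open Pool.Agent.Work.MP_db9399_bg (den cl LabP Lbl c3f c3 rs rs_symm Ix mem_nb mem_cl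
  den_nonneg den_mono c3f_inj mem_c3 two_mul_inj)
open Pool.Agent.Work.MP_db9399_lc (BL)
open Pool.Agent.Work.MP_db9399_lc.helper54 (In2 hdet In2_c3 In2_ne posn posn_lt posn_inj
  exists_In2 card_sdiff_UH)

universe u

theorem ty_unique {l S : ℕ} (hl : 3 ≤ l) {ν : ℕ} {τ τ' : Option (ZMod 3)} {c c' : Cr l S}
    (h : ty ν τ c c') (h' : ty ν τ' c c') : τ = τ' := by
  rcases h with ⟨j, h1, h2⟩ | ⟨h1, h2, h3⟩
  · rcases h' with ⟨j', h1', h2'⟩ | ⟨h1', h2', h3'⟩
    · rw [h1, h1', tj_unique hl h2 h2']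
    · exact absurd h2 (h3' j)
  · rcases h' with ⟨j', h1', h2'⟩ | ⟨h1', h2', h3'⟩
    · exact absurd h2' (h3 j')
    · rw [h1, h1']

theorem ty_right {l S : ℕ} {ν : ℕ} {τ : Option (ZMod 3)} {c c' : Cr l S}
    (h : ty ν τ c c') : τ ≠ some c'.2.1 := by
  rcases h with ⟨j, h1, h2⟩ | ⟨h1, -⟩
  · rw [h1]
    intro h3
    exact h2.2.1 (Option.some_inj.mp h3).symm
  · rw [h1]
    simp

/-- position of `s` among the indices of the same type -/
noncomputable def rk {w : ℕ} (τ : Fin w → Option (ZMod 3)) (s : Fin w) : ℕ :=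
  (univ.filter (fun s' => τ s' = τ s ∧ s' < s)).card

theorem rk_lt {w : ℕ} (τ : Fin w → Option (ZMod 3)) (s : Fin w) :
    rk τ s < (univ.filter (fun s' => τ s' = τ s)).card := by
  apply card_lt_card
  rw [Finset.ssubset_iff_of_subset]
  · refine ⟨s, ?_, ?_⟩
    · rw [mem_filter]
      exact ⟨mem_univ _, rfl⟩
    · rw [mem_filter]
      exact fun h => lt_irrefl _ h.2.2
  · intro z hz
    rw [mem_filter] at hz ⊢
    exact ⟨hz.1, hz.2.1⟩

theorem rk_lt_rk {w : ℕ} {τ : Fin w → Option (ZMod 3)} {s s' : Fin w} (h : τ s = τ s')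
    (hs : s < s') : rk τ s < rk τ s' := by
  apply card_lt_card
  rw [Finset.ssubset_iff_of_subset]
  · refine ⟨s, ?_, ?_⟩
    · rw [mem_filter]
      exact ⟨mem_univ _, h, hs⟩
    · rw [mem_filter]
      exact fun h => lt_irrefl _ h.2.2
  · intro z hz
    rw [mem_filter] at hz ⊢
    exact ⟨hz.1, hz.2.1.trans h, hz.2.2.trans hs⟩

theorem rk_inj {w : ℕ} {τ : Fin w → Option (ZMod 3)} {s s' : Fin w} (h : τ s = τ s')
    (hs : rk τ s = rk τ s') : s = s' := by
  rcases lt_trichotomy s s' with h1 | h1 | h1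
  · exact absurd hs (rk_lt_rk h h1).ne
  · exact h1
  · exact absurd hs.symm (rk_lt_rk h.symm h1).ne

section
variable {V : Type u} [Fintype V] {l m r K K1 S : ℕ} {w : ℕ}

/-- the edges of type `t` -/
def Gt (ν : ℕ) (t : Option (ZMod 3)) (G : SimpleGraph V) (lab : V → Lh l m r K K1 S) :
    SimpleGraph V where
  Adj v v' := G.Adj v v' ∧ ty ν t (cr (lab v)) (cr (lab v'))
  symm := ⟨fun v v' h => ⟨h.1.symm, ty_symm h.2⟩⟩
  loopless := ⟨fun v h => G.loopless.irrefl v h.1⟩

/-- the cell `b` without the part of the type `t` -/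
noncomputable def As (t : Option (ZMod 3)) (UH : Finset V) (lab : V → Lh l m r K K1 S)
    (b : ZMod (2 * m + 1)) : Finset V :=
  univ.filter (fun v => ce (lab v) = b ∧ v ∉ UH ∧ t ≠ some (pt (lab v)))

theorem mem_As {t : Option (ZMod 3)} {UH : Finset V} {lab : V → Lh l m r K K1 S}
    {b : ZMod (2 * m + 1)} {v : V} :
    v ∈ As t UH lab b ↔ ce (lab v) = b ∧ v ∉ UH ∧ t ≠ some (pt (lab v)) := by
  simp [As]

/-- from the matchings of the pairs to the near-decomposition -/
theorem combine (hl : 3 ≤ l) {ν : ℕ} {G : SimpleGraph V} {UH : Finset V}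
    {lab : V → Lh l m r K K1 S} (τ : Fin w → Option (ZMod 3))
    (MM : ZMod (2 * m + 1) → Fin m → Option (ZMod 3) → ℕ → SimpleGraph V)
    (h1 : ∀ a y t i, MM a y t i ≤ Gt ν t G lab ∧ IsMat (MM a y t i))
    (h2 : ∀ a y t i v v', (MM a y t i).Adj v v' →
      (v ∈ As t UH lab (a + ((y : ℕ) + 1 : ℕ)) ∧ v' ∈ As t UH lab (a - ((y : ℕ) + 1 : ℕ))) ∨
      (v ∈ As t UH lab (a - ((y : ℕ) + 1 : ℕ)) ∧ v' ∈ As t UH lab (a + ((y : ℕ) + 1 : ℕ))))
    (h3 : ∀ a y t i j, i ≠ j → ∀ v v', (MM a y t i).Adj v v' → ¬ (MM a y t j).Adj v v')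
    (h4 : ∀ a (y : Fin m) t i, i < (m - 1) * (univ.filter (fun s => τ s = t)).card →
      ∀ v ∈ As t UH lab (a + ((y : ℕ) + 1 : ℕ)) ∪ As t UH lab (a - ((y : ℕ) + 1 : ℕ)),
      v ∉ univ.filter (fun v => kp (lab v) = a ∧ io (lab v) = 0) →
      (nb (MM a y t i) v).Nonempty) :
    ∃ Nd : Ix m w → SimpleGraph V, NDec ν G UH lab τ Nd := by
  set W : Fin w → ℕ := fun s => (univ.filter (fun s' => τ s' = τ s)).card with hW
  have hidx : ∀ (x : Ix m w) (y : Fin m), y ≠ x.2.1 →
      posn x.2.1 y * W x.2.2 + rk τ x.2.2 < (m - 1) * W x.2.2 := by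
    intro x y hy
    have h5 := posn_lt hy
    have h6 : rk τ x.2.2 < W x.2.2 := rk_lt τ x.2.2
    have h7 : (posn x.2.1 y + 1) * W x.2.2 ≤ (m - 1) * W x.2.2 :=
      Nat.mul_le_mul_right _ (by omega)
    rw [add_mul, one_mul] at h7
    omega
  set Nd : Ix m w → SimpleGraph V := fun x =>
    { Adj := fun v v' => ∃ y : Fin m, y ≠ x.2.1 ∧
        (MM x.1 y (τ x.2.2) (posn x.2.1 y * W x.2.2 + rk τ x.2.2)).Adj v v'
      symm := ⟨fun v v' ⟨y, hy, h⟩ => ⟨y, hy, h.symm⟩⟩
      loopless := ⟨fun v ⟨y, hy, h⟩ => (MM x.1 y _ _).loopless.irrefl v h⟩ } with hNd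
  have hAdj : ∀ x v v', (Nd x).Adj v v' ↔ ∃ y : Fin m, y ≠ x.2.1 ∧
      (MM x.1 y (τ x.2.2) (posn x.2.1 y * W x.2.2 + rk τ x.2.2)).Adj v v' := by
    intro x v v'
    rfl
  -- the cell of an end determines `y`
  have hIn : ∀ a y t i v v', (MM a y t i).Adj v v' → In2 a y (ce (lab v)) := by
    intro a y t i v v' h
    rcases h2 a y t i v v' h with ⟨h5, -⟩ | ⟨h5, -⟩
    · exact Or.inl (mem_As.1 h5).1
    · exact Or.inr (mem_As.1 h5).1
  have hsum : ∀ a y t i v v', (MM a y t i).Adj v v' → ce (lab v) + ce (lab v') = 2 * a := by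
    intro a y t i v v' h
    rcases h2 a y t i v v' h with ⟨h5, h6⟩ | ⟨h5, h6⟩
    · rw [(mem_As.1 h5).1, (mem_As.1 h6).1]
      ring
    · rw [(mem_As.1 h5).1, (mem_As.1 h6).1]
      ring
  refine ⟨Nd, ?_, ?_, ?_, ?_, ?_⟩
  · intro x v v' h
    obtain ⟨y, hy, h⟩ := (hAdj x v v').1 h
    exact ((h1 _ _ _ _).1 h).1
  · intro x v
    rw [Finset.card_le_one]
    intro z1 hz1 z2 hz2
    rw [mem_nb, hAdj] at hz1 hz2
    obtain ⟨y1, hy1, hz1⟩ := hz1
    obtain ⟨y2, hy2, hz2⟩ := hz2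
    have h5 : y1 = y2 := hdet (hIn _ _ _ _ _ _ hz1) (hIn _ _ _ _ _ _ hz2)
    subst h5
    have h6 := (h1 x.1 y1 (τ x.2.2) (posn x.2.1 y1 * W x.2.2 + rk τ x.2.2)).2 v
    rw [Finset.card_le_one] at h6
    exact h6 z1 (mem_nb.2 hz1) z2 (mem_nb.2 hz2)
  · intro x v v' h
    obtain ⟨y, hy, h⟩ := (hAdj x v v').1 h
    have h5 := hIn _ _ _ _ _ _ h
    refine ⟨?_, ?_, hsum _ _ _ _ _ _ h, ?_⟩
    · rcases h2 _ _ _ _ v v' h with ⟨h6, -⟩ | ⟨h6, -⟩
      · exact (mem_As.1 h6).2.1
      · exact (mem_As.1 h6).2.1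
    · intro h6
      rcases mem_c3.1 h6 with h7 | h7
      · exact In2_ne h5 h7
      · exact hy (hdet h5 h7)
    · exact ((h1 _ _ _ _).1 h).2
  · intro x x' hne v v' h h'
    obtain ⟨y, hy, h⟩ := (hAdj x v v').1 h
    obtain ⟨y', hy', h'⟩ := (hAdj x' v v').1 h'
    obtain ⟨a, hh, s⟩ := x
    obtain ⟨a', hh', s'⟩ := x'
    simp only at h h' hy hy'
    have h5 : a = a' := two_mul_inj ((hsum _ _ _ _ _ _ h).symm.trans (hsum _ _ _ _ _ _ h'))
    subst h5
    have h6 : y = y' := hdet (hIn _ _ _ _ _ _ h) (hIn _ _ _ _ _ _ h')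
    subst h6
    have ht : τ s = τ s' := ty_unique hl ((h1 _ _ _ _).1 h).2 ((h1 _ _ _ _).1 h').2
    have hWs : W s' = W s := by
      rw [hW]
      simp only [ht]
    rw [← ht, hWs] at h'
    refine h3 a y _ _ _ ?_ v v' h h'
    intro h7
    have hs : rk τ s < W s := rk_lt τ s
    have hs' : rk τ s' < W s := by
      rw [← hWs]
      exact rk_lt τ s'
    have h8 : posn hh y = posn hh' y ∧ rk τ s = rk τ s' := by
      have hw : 0 < W s := by omega
      have e1 : (posn hh y * W s + rk τ s) / W s = posn hh y := by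
        rw [mul_comm, Nat.mul_add_div hw, Nat.div_eq_of_lt hs, add_zero]
      have e2 : (posn hh' y * W s + rk τ s') / W s = posn hh' y := by
        rw [mul_comm, Nat.mul_add_div hw, Nat.div_eq_of_lt hs', add_zero]
      have e3 : posn hh y = posn hh' y := by
        rw [← e1, ← e2, h7]
      refine ⟨e3, ?_⟩
      rw [e3] at h7
      omega
    have h9 : hh = hh' := posn_inj hy hy' h8.1
    have h10 : s = s' := rk_inj ht h8.2
    rw [h9, h10] at hne
    exact hne rfl
  · intro x v hv hc hτ hJ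
    have h5 : ce (lab v) ≠ x.1 := by
      intro h6
      exact hc (mem_c3.2 (Or.inl h6))
    obtain ⟨y, hy⟩ := exists_In2 h5
    have hyx : y ≠ x.2.1 := by
      rintro rfl
      exact hc (In2_c3 hy)
    have h6 := h4 x.1 y (τ x.2.2) (posn x.2.1 y * W x.2.2 + rk τ x.2.2) (hidx x y hyx) v (by
      rw [mem_union, mem_As, mem_As]
      rcases hy with hy | hy
      · exact Or.inl ⟨hy, hv, hτ⟩
      · exact Or.inr ⟨hy, hv, hτ⟩) (by
      rw [mem_filter]
      exact fun h7 => hJ h7.2)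
    obtain ⟨z, hz⟩ := h6
    rw [mem_nb] at hz
    exact ⟨z, mem_nb.2 ((hAdj x v z).2 ⟨y, hyx, hz⟩)⟩

/-- neighbours through edges of type `t` -/
theorem nb_Gt {ν : ℕ} {t : Option (ZMod 3)} {G : SimpleGraph V} {UH : Finset V}
    {lab : V → Lh l m r K K1 S} (v : V) (b : ZMod (2 * m + 1)) :
    nb (Gt ν t G lab) v ∩ As t UH lab b = (nb G v ∩ cl lab (cy {b}
      (univ.filter (fun c' => ty ν t (cr (lab v)) c')))) \ UH := by
  ext z
  rw [mem_inter, mem_nb, mem_As, mem_sdiff, mem_inter, mem_nb, mem_cl, mem_cy, mem_singleton,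
    mem_filter]
  constructor
  · rintro ⟨⟨h1, h2⟩, h3, h4, h5⟩
    exact ⟨⟨h1, h3, mem_univ _, h2⟩, h4⟩
  · rintro ⟨⟨h1, h3, -, h5⟩, h4⟩
    exact ⟨⟨h1, h5⟩, h3, h4, ty_right h5⟩

theorem nb_Gt2 {ν : ℕ} {t : Option (ZMod 3)} {G : SimpleGraph V} {UH : Finset V}
    {lab : V → Lh l m r K K1 S} (v : V) (a b : ZMod (2 * m + 1)) :
    (nb G v ∩ cl lab (bb {b} (univ.filter (fun c' => ty ν t (cr (lab v)) c')) univ {a} {0}
      univ)) \ UH ⊆ nb (Gt ν t G lab) v ∩ As t UH lab b ∩
        univ.filter (fun v => kp (lab v) = a ∧ io (lab v) = 0) := by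
  intro z hz
  rw [mem_sdiff, mem_inter, mem_nb, mem_cl, mem_bb, mem_singleton, mem_filter,
    mem_singleton, mem_singleton] at hz
  obtain ⟨⟨h1, h2, ⟨-, h3⟩, -, h4, h5, -⟩, h6⟩ := hz
  rw [mem_inter, mem_inter, mem_nb, mem_As, mem_filter]
  exact ⟨⟨⟨h1, h3⟩, h2, h6, ty_right h3⟩, mem_univ _, h4, h5⟩

theorem den_n1 (hl : 3 ≤ l) (ν : ℕ) (hν : ν ≤ S) (t : Option (ZMod 3)) (c : Cr l S)
    (hc : t ≠ some c.2.1) (b : ZMod (2 * m + 1)) :
    den (cy {b} (univ.filter (fun c' => ty ν t c c')) : Finset (Lh l m r K K1 S)) =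
      ft l S ν t / (2 * m + 1) := by
  rw [den_ty hl ν hν t c hc, card_singleton]
  push_cast
  ring

theorem den_n2 (hl : 3 ≤ l) (ν : ℕ) (hν : ν ≤ S) (t : Option (ZMod 3)) (c : Cr l S)
    (hc : t ≠ some c.2.1) (a b : ZMod (2 * m + 1)) :
    den (bb {b} (univ.filter (fun c' => ty ν t c c')) univ {a} {0} univ :
      Finset (Lh l m r K K1 S)) = ft l S ν t / (2 * m + 1) / ((2 * m + 1) * (K + 1)) := by
  rw [den_bb, frac_ty hl ν hν t c hc]
  simp only [card_univ, Fintype.card_fin, card_singleton]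
  push_cast
  have h1 : (0 : ℝ) < 2 * (m : ℝ) + 1 := by positivity
  have h2 : (0 : ℝ) < (r : ℝ) + 1 := by positivity
  have h3 : (0 : ℝ) < (K : ℝ) + 1 := by positivity
  have h4 : (0 : ℝ) < (K1 : ℝ) + 1 := by positivity
  field_simp

/-- density of a cell without a part -/
theorem den_cell (t : Option (ZMod 3)) (b : ZMod (2 * m + 1)) :
    2 / (3 * (2 * (m : ℝ) + 1)) ≤
      den (cy {b} (univ.filter (fun c => t ≠ some c.2.1)) : Finset (Lh l m r K K1 S)) := by
  obtain ⟨j, hj⟩ : ∃ j : ZMod 3, ∀ c : Cr l S, c.2.1 ≠ j → t ≠ some c.2.1 := by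
    cases t with
    | none => exact ⟨0, fun c _ => by simp⟩
    | some j => exact ⟨j, fun c hc h => hc (Option.some_inj.mp h).symm⟩
  have h1 : cy {b} ((univ : Finset (ZMod (2 * l + 1))) ×ˢ (({j}ᶜ : Finset (ZMod 3)) ×ˢ
      (univ : Finset (ZMod (S + 1))))) ⊆
      (cy {b} (univ.filter (fun c => t ≠ some c.2.1)) : Finset (Lh l m r K K1 S)) := by
    intro z hz
    rw [mem_cy, mem_product, mem_product, mem_compl, mem_singleton, mem_singleton] at hz
    rw [mem_cy, mem_filter, mem_singleton]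
    exact ⟨hz.1, mem_univ _, hj _ hz.2.2.1⟩
  refine le_trans (le_of_eq ?_) (den_mono h1)
  rw [den_cy, card_product, card_product, card_singleton, card_univ, card_univ, card_zmod,
    card_zmod, card_compl, ZMod.card, card_singleton]
  have h1 : (0 : ℝ) < 2 * (m : ℝ) + 1 := by positivity
  have h2 : (0 : ℝ) < 2 * (l : ℝ) + 1 := by positivity
  have h3 : (0 : ℝ) < (S : ℝ) + 1 := by positivity
  push_cast
  field_simp

theorem deg_le {T : Type} [Fintype T] {G : SimpleGraph V} {d : ℕ} {σ c1 : ℝ} {lab : V → T}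
    (hL : LabP G d σ c1 lab) (hd : ∀ v, (nb G v).card ≤ d) (v : V) (P : Finset T) :
    ((nb G v ∩ cl lab P).card : ℝ) ≤ den P * d + σ * d := by
  have h1 := (abs_le.mp (hL.deg v P)).2
  have h2 : den P * ((nb G v).card : ℝ) ≤ den P * d :=
    mul_le_mul_of_nonneg_left (by exact_mod_cast hd v) (den_nonneg P)
  linarith

theorem le_deg {T : Type} [Fintype T] {G : SimpleGraph V} {d : ℕ} {σ c1 ε : ℝ} {lab : V → T}
    (hL : LabP G d σ c1 lab) (hd : ∀ v, (1 - ε) * d ≤ ((nb G v).card : ℝ)) (v : V)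
    (P : Finset T) :
    den P * ((1 - ε) * d) - σ * d ≤ ((nb G v ∩ cl lab P).card : ℝ) := by
  have h1 := (abs_le.mp (hL.deg v P)).1
  have h2 : den P * ((1 - ε) * d) ≤ den P * ((nb G v).card : ℝ) :=
    mul_le_mul_of_nonneg_left (hd v) (den_nonneg P)
  linarith

/-- double counting -/
theorem card_big {G : SimpleGraph V} {A : Finset V} {d : ℕ}
    {y : ℝ} (hd : ∀ v, (nb G v).card ≤ d) (hV : 3 * (d : ℝ) ≤ Fintype.card V) (hd0 : 0 < d)
    (hy : 0 ≤ y) (hlo : ∀ v, y ≤ ((nb G v ∩ A).card : ℝ)) :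
    3 * y ≤ (A.card : ℝ) := by
  have hd0' : (0 : ℝ) < d := by exact_mod_cast hd0
  have h1 : ∑ v : V, ((nb G v ∩ A).card : ℝ) = ∑ z ∈ A, ((nb G z).card : ℝ) := by
    have h2 : ∀ v : V, ((nb G v ∩ A).card : ℝ) =
        ∑ z ∈ A, if G.Adj v z then (1 : ℝ) else 0 := by
      intro v
      rw [Finset.sum_ite, Finset.sum_const_zero, add_zero, Finset.sum_const, nsmul_eq_mul,
        mul_one]
      congr 2
      ext z
      rw [mem_inter, mem_nb, mem_filter]
      tauto
    have h3 : ∀ z : V, ((nb G z).card : ℝ) = ∑ v : V, if G.Adj v z then (1 : ℝ) else 0 := by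
      intro z
      rw [Finset.sum_ite, Finset.sum_const_zero, add_zero, Finset.sum_const, nsmul_eq_mul,
        mul_one]
      congr 2
      ext v
      rw [mem_nb, mem_filter, G.adj_comm]
      simp
    rw [Finset.sum_congr rfl (fun v _ => h2 v), Finset.sum_comm]
    exact Finset.sum_congr rfl (fun z _ => (h3 z).symm)
  have h4 : (Fintype.card V : ℝ) * y ≤ ∑ v : V, ((nb G v ∩ A).card : ℝ) := by
    have h5 : ∑ _v : V, y ≤ ∑ v : V, ((nb G v ∩ A).card : ℝ) :=
      Finset.sum_le_sum (fun v _ => hlo v)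
    rw [Finset.sum_const, nsmul_eq_mul, card_univ] at h5
    exact h5
  have h6 : ∑ z ∈ A, ((nb G z).card : ℝ) ≤ (A.card : ℝ) * d := by
    have h7 : ∑ z ∈ A, ((nb G z).card : ℝ) ≤ ∑ _z ∈ A, (d : ℝ) :=
      Finset.sum_le_sum (fun z _ => by exact_mod_cast hd z)
    rw [Finset.sum_const, nsmul_eq_mul] at h7
    exact h7
  have h8 : 3 * (d : ℝ) * y ≤ (Fintype.card V : ℝ) * y := mul_le_mul_of_nonneg_right hV hy
  have h9 : (3 * y) * d ≤ (A.card : ℝ) * d := by
    calc (3 * y) * d = 3 * (d : ℝ) * y := by ring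
      _ ≤ _ := h8
      _ ≤ _ := h4
      _ = _ := h1
      _ ≤ _ := h6
  exact le_of_mul_le_mul_right h9 hd0'

end

theorem stmt_NDEC (hFAC : Pool.Agent.Work.MP_db9399_bg.Stmt_FAC.{u}) : Stmt_NDEC.{u} := by
  intro g l m r K K1 S ν hg hl hm hν
  have hm0 : (0 : ℝ) < 2 * (m : ℝ) + 1 := by positivity
  have hl0 : (0 : ℝ) < 2 * (l : ℝ) + 1 := by positivity
  have hK0 : (0 : ℝ) < (K : ℝ) + 1 := by positivity
  have hK1 : (1 : ℝ) ≤ (K : ℝ) + 1 := by
    have : (0 : ℝ) ≤ K := Nat.cast_nonneg _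
    linarith
  set N : ℝ := 2 * (m : ℝ) + 1 with hN
  have hN5 : 5 ≤ N := by
    have : (2 : ℝ) ≤ m := by exact_mod_cast hm
    rw [hN]
    linarith
  -- the proportions
  have hf0 : 0 < f0 l S ν := by
    have h1 := f0_ge l S ν
    have h2 : 3 / (2 * (l : ℝ) + 1) ≤ 3 / 7 := by
      have : (3 : ℝ) ≤ l := by exact_mod_cast hl
      apply div_le_div_of_nonneg_left (by norm_num) (by norm_num)
      linarith
    linarith
  have hfq : 0 < fq l S ν := fq_pos l S ν hν
  set μ0 : ℝ := min (f0 l S ν) (fq l S ν) with hμ0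
  have hμ : 0 < μ0 := lt_min hf0 hfq
  have hft0 : ∀ t, μ0 ≤ ft l S ν t := by
    intro t
    unfold ft
    split_ifs
    · exact min_le_left _ _
    · exact min_le_right _ _
  have hft1 : ∀ t, ft l S ν t ≤ 1 := by
    intro t
    unfold ft
    split_ifs
    · exact f0_le l S ν hν
    · have h1 := fq_le l S ν
      have h2 : 2 / (3 * (2 * (l : ℝ) + 1)) ≤ 1 := by
        rw [div_le_one (by positivity)]
        have : (0 : ℝ) ≤ l := Nat.cast_nonneg _
        linarith
      linarith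
  set δ : ℝ := 1 / (40 * N ^ 2 * (K + 1)) with hδ
  have hδ0 : 0 < δ := by positivity
  set σ : ℝ := δ * μ0 / (8 * N) with hσ
  have hσ0 : 0 < σ := by positivity
  refine ⟨σ, δ / 4, ⌈2 / σ⌉₊ + 1, hσ0, by positivity, ?_⟩
  intro V _ G d w c1 UH lab τ hd hB hL h2 hw
  have hd1 : 0 < d := by omega
  have hd1' : (0 : ℝ) < d := by exact_mod_cast hd1
  have h2σ : 2 ≤ σ * d := by
    have h3 : 2 / σ ≤ (d : ℝ) := (Nat.le_ceil _).trans (by
      have : ⌈2 / σ⌉₊ ≤ d := by omega
      exact_mod_cast this)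
    rw [div_le_iff₀ hσ0] at h3
    linarith
  have hVc : 3 * (d : ℝ) ≤ Fintype.card V := by exact_mod_cast hB.big
  set q : Option (ZMod 3) → ℝ := fun t => ft l S ν t * d / N with hq
  have hq0 : ∀ t, 0 < q t := by
    intro t
    have h3 : 0 < ft l S ν t := lt_of_lt_of_le hμ (hft0 t)
    simp only [hq]
    positivity
  have hσq : ∀ t, σ * d ≤ δ * q t / 8 := by
    intro t
    have h3 : σ * d = δ * (μ0 * d / N) / 8 := by
      rw [hσ]
      field_simp
    rw [h3]
    have h4 : μ0 * d / N ≤ q t := by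
      simp only [hq]
      apply div_le_div_of_nonneg_right _ hm0.le
      exact mul_le_mul_of_nonneg_right (hft0 t) hd1'.le
    have h5 : δ * (μ0 * d / N) ≤ δ * q t := mul_le_mul_of_nonneg_left h4 hδ0.le
    linarith
  have hqd : ∀ t, q t ≤ d / N := by
    intro t
    simp only [hq]
    apply div_le_div_of_nonneg_right _ hm0.le
    exact mul_le_of_le_one_left hd1'.le (hft1 t)
  have hδ1 : δ ≤ 1 / 1000 := by
    rw [hδ]
    apply one_div_le_one_div_of_le (by norm_num)
    have e1 : 5 * 5 ≤ N * N := mul_le_mul hN5 hN5 (by norm_num) (by linarith)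
    have e2 : 40 * N ^ 2 * 1 ≤ 40 * N ^ 2 * ((K : ℝ) + 1) :=
      mul_le_mul_of_nonneg_left hK1 (by positivity)
    rw [pow_two] at e2 ⊢
    linarith
  set Dt : Option (ZMod 3) → ℕ := fun t => (m - 1) * (univ.filter (fun s => τ s = t)).card
    with hDt
  have hD : ∀ t, ((Dt t : ℕ) : ℝ) ≤ (1 - 1 / N) * q t := by
    intro t
    have h3 : ((m - 1 : ℕ) : ℝ) = (m : ℝ) - 1 := by
      rw [Nat.cast_sub (by omega)]
      simp
    simp only [hDt, hq]
    rw [Nat.cast_mul, h3]
    exact hw t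
  -- degrees
  have hdeg : ∀ t v b, t ≠ some (pt (lab v)) →
      |((nb (Gt ν t G lab) v ∩ As t UH lab b).card : ℝ) - q t| ≤ δ * q t := by
    intro t v b hv
    rw [nb_Gt]
    obtain ⟨h3, h4⟩ := card_sdiff_UH (A := nb G v ∩ cl lab (cy {b}
      (univ.filter (fun c' => ty ν t (cr (lab v)) c')))) inter_subset_left (h2 v)
    have h5 := deg_le hL hB.deg v (cy {b} (univ.filter (fun c' => ty ν t (cr (lab v)) c')))
    have h6 := le_deg hL hB.low v (cy {b} (univ.filter (fun c' => ty ν t (cr (lab v)) c')))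
    rw [den_n1 hl ν hν t _ hv] at h5 h6
    have h7 : ft l S ν t / (2 * m + 1) * d = q t := by
      simp only [hq]
      rw [hN]
      ring
    have h8 : ft l S ν t / (2 * m + 1) * ((1 - δ / 4) * d) = q t - δ / 4 * q t := by
      rw [← h7]
      ring
    rw [h7] at h5
    rw [h8] at h6
    rw [abs_le]
    have h9 : 0 < δ * q t := mul_pos hδ0 (hq0 t)
    have h10 := hσq t
    constructor <;> linarith
  have hop : ∀ t v a b, t ≠ some (pt (lab v)) → 1 / (2 * N * (K + 1)) * q t ≤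
      ((nb (Gt ν t G lab) v ∩ As t UH lab b ∩
      univ.filter (fun v => kp (lab v) = a ∧ io (lab v) = 0)).card : ℝ) := by
    intro t v a b hv
    have h3 := (Nat.cast_le (α := ℝ)).2 (card_le_card (nb_Gt2 (ν := ν) (t := t) (G := G)
      (UH := UH) (lab := lab) v a b))
    obtain ⟨h4, -⟩ := card_sdiff_UH (A := nb G v ∩ cl lab (bb {b}
      (univ.filter (fun c' => ty ν t (cr (lab v)) c')) univ {a} {0} univ)) inter_subset_left
      (h2 v)
    have h6 := le_deg hL hB.low v (bb {b} (univ.filter (fun c' => ty ν t (cr (lab v)) c'))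
      univ {a} {0} univ)
    rw [den_n2 hl ν hν t _ hv] at h6
    have h8 : ft l S ν t / (2 * m + 1) / ((2 * m + 1) * (K + 1)) *
        ((1 - δ / 4) * d) = (1 - δ / 4) * (q t / (N * (K + 1))) := by
      simp only [hq]
      rw [hN]
      ring
    rw [h8] at h6
    have hqt := hq0 t
    have h9 : δ * q t ≤ 1 / 40 * (q t / (N * (K + 1))) := by
      have h10 : δ * q t = 1 / 40 * (q t / (N * (K + 1))) * (1 / N) := by
        rw [hδ]
        field_simp
      rw [h10]
      have h11 : 1 / N ≤ 1 := by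
        rw [div_le_one hm0]
        linarith
      have h12 : 0 ≤ 1 / 40 * (q t / (N * (K + 1))) := by positivity
      exact mul_le_of_le_one_right h12 h11
    have h10 : 1 / (2 * N * (K + 1)) * q t = 1 / 2 * (q t / (N * (K + 1))) := by
      field_simp
    have h11 : 0 ≤ q t / (N * (K + 1)) := by positivity
    have h12 : δ / 4 * (q t / (N * (K + 1))) ≤ 1 / 4000 * (q t / (N * (K + 1))) :=
      mul_le_mul_of_nonneg_right (by linarith) h11
    rw [h10]
    have h13 : (1 - δ / 4) * (q t / (N * (K + 1))) =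
        q t / (N * (K + 1)) - δ / 4 * (q t / (N * (K + 1))) := by ring
    rw [h13] at h6
    have h14 := hσq t
    linarith
  have hcard : ∀ t b, 2 * Dt t ≤ (As t UH lab b).card := by
    intro t b
    have h3 : 3 * (2 / 3 * ((1 - 1 / N) * (d / N))) ≤ ((As t UH lab b).card : ℝ) := by
      apply card_big hB.deg hVc hd1
      · apply mul_nonneg (by norm_num)
        apply mul_nonneg
        · have h11 : 1 / N ≤ 1 := by
            rw [div_le_one hm0]
            linarith
          linarith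
        · positivity
      · intro v
        have h4 : nb G v ∩ As t UH lab b = (nb G v ∩ cl lab (cy {b}
            (univ.filter (fun c => t ≠ some c.2.1)))) \ UH := by
          ext z
          rw [mem_inter, mem_As, mem_sdiff, mem_inter, mem_cl, mem_cy, mem_singleton, mem_filter]
          constructor
          · rintro ⟨h5, h6, h7, h8⟩
            exact ⟨⟨h5, h6, mem_univ _, h8⟩, h7⟩
          · rintro ⟨⟨h5, h6, -, h8⟩, h7⟩
            exact ⟨h5, h6, h7, h8⟩
        rw [h4]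
        obtain ⟨h5, -⟩ := card_sdiff_UH (A := nb G v ∩ cl lab (cy {b}
            (univ.filter (fun c => t ≠ some c.2.1)))) inter_subset_left (h2 v)
        have h6 := le_deg hL hB.low v (cy {b} (univ.filter (fun c => t ≠ some c.2.1)))
        have h6' := den_cell (l := l) (m := m) (r := r) (K := K) (K1 := K1) (S := S) t b
        have h6'' : 2 / (3 * (2 * (m : ℝ) + 1)) * ((1 - δ / 4) * d) ≤
            den (cy {b} (univ.filter (fun c => t ≠ some c.2.1)) : Finset (Lh l m r K K1 S)) *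
              ((1 - δ / 4) * d) := by
          apply mul_le_mul_of_nonneg_right h6'
          apply mul_nonneg _ hd1'.le
          linarith
        have h7 : 2 / (3 * (2 * (m : ℝ) + 1)) * ((1 - δ / 4) * d) =
            2 / 3 * ((1 - δ / 4) * (d / N)) := by
          rw [hN]
          field_simp
        rw [h7] at h6''
        have h8 : σ * d ≤ δ / 8 * (d / N) := by
          have e1 := hσq t
          have e2 := mul_le_mul_of_nonneg_left (hqd t) hδ0.le
          linarith
        have h9 : 40 * δ ≤ 1 / N := by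
          rw [hδ]
          have e1 : N ≤ N * N := le_mul_of_one_le_right hm0.le (by linarith)
          have e2 : N ^ 2 * 1 ≤ N ^ 2 * ((K : ℝ) + 1) :=
            mul_le_mul_of_nonneg_left hK1 (by positivity)
          have e3 : 40 * (1 / (40 * N ^ 2 * ((K : ℝ) + 1))) = 1 / (N ^ 2 * (K + 1)) := by
            field_simp
          rw [e3]
          apply one_div_le_one_div_of_le hm0
          rw [pow_two] at e2 ⊢
          linarith
        have h10 : 0 ≤ (d : ℝ) / N := by positivity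
        have h11 : 40 * δ * (d / N) ≤ 1 / N * (d / N) := mul_le_mul_of_nonneg_right h9 h10
        have h12 : 0 ≤ δ * (d / N) := by positivity
        have h13 : (1 - 1 / N) * (d / N) = d / N - 1 / N * (d / N) := by ring
        have h14 : (1 - δ / 4) * (d / N) = d / N - δ * (d / N) / 4 := by ring
        rw [h13]
        rw [h14] at h6''
        linarith
    have h4 : 2 * ((Dt t : ℕ) : ℝ) ≤ ((As t UH lab b).card : ℝ) := by
      have h5 := hqd t
      have h6 : 0 ≤ 1 - 1 / N := by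
        have h11 : 1 / N ≤ 1 := by
          rw [div_le_one hm0]
          linarith
        linarith
      have h7 : (1 - 1 / N) * q t ≤ (1 - 1 / N) * (d / N) := mul_le_mul_of_nonneg_left h5 h6
      have h8 := hD t
      linarith
    exact_mod_cast h4
  have hex : ∀ (a : ZMod (2 * m + 1)) (y : Fin m) (t : Option (ZMod 3)),
      ∃ M : ℕ → SimpleGraph V,
      (∀ i, M i ≤ Gt ν t G lab ∧ IsMat (M i)) ∧
      (∀ i v v', (M i).Adj v v' →
        (v ∈ As t UH lab (a + ((y : ℕ) + 1 : ℕ)) ∧ v' ∈ As t UH lab (a - ((y : ℕ) + 1 : ℕ))) ∨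
        (v ∈ As t UH lab (a - ((y : ℕ) + 1 : ℕ)) ∧ v' ∈ As t UH lab (a + ((y : ℕ) + 1 : ℕ)))) ∧
      (∀ i j, i ≠ j → ∀ v v', (M i).Adj v v' → ¬ (M j).Adj v v') ∧
      ∀ i, i < Dt t →
        ∀ v ∈ As t UH lab (a + ((y : ℕ) + 1 : ℕ)) ∪ As t UH lab (a - ((y : ℕ) + 1 : ℕ)),
        v ∉ univ.filter (fun v => kp (lab v) = a ∧ io (lab v) = 0) →
        (nb (M i) v).Nonempty := by
    intro a y t
    obtain ⟨M, hM1, hM2, hM3, hM4⟩ := hFAC (Gt ν t G lab) (q t) (1 / N) (1 / (2 * N * (K + 1))) δ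
      (Dt t) (As t UH lab (a + ((y : ℕ) + 1 : ℕ))) (As t UH lab (a - ((y : ℕ) + 1 : ℕ)))
      (univ.filter (fun v => kp (lab v) = a ∧ io (lab v) = 0)) (hq0 t) (by positivity)
      (by
        rw [div_le_one hm0]
        linarith) (by positivity)
      (by
        rw [div_le_one (by positivity)]
        have e2 : 2 * N * 1 ≤ 2 * N * ((K : ℝ) + 1) :=
          mul_le_mul_of_nonneg_left hK1 (by positivity)
        linarith) hδ0.le
      (by
        rw [hδ]
        have h3 : 20 * (1 / (40 * N ^ 2 * ((K : ℝ) + 1))) =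
            1 / N * (1 / (2 * N * (K + 1))) := by
          field_simp
          norm_num
        exact h3.le) (hD t)
      (by
        rw [Finset.disjoint_left]
        intro v hv hv'
        have h3 := (mem_As.1 hv).1
        have h4 := (mem_As.1 hv').1
        rw [h3] at h4
        have h5 := c3f_inj a y
        have h6 : c3f a y 1 = c3f a y 2 := h4
        exact absurd (h5 h6) (by decide)) (hcard t _) (hcard t _)
      (fun v hv => hdeg t v _ (mem_As.1 hv).2.2)
      (fun v hv => hdeg t v _ (mem_As.1 hv).2.2) (fun v hv => hop t v _ _ (mem_As.1 hv).2.2)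
      (fun v hv => hop t v _ _ (mem_As.1 hv).2.2)
    refine ⟨fun i => if h : i < Dt t then M ⟨i, h⟩ else ⊥, ?_, ?_, ?_, ?_⟩
    · intro i
      by_cases h : i < Dt t
      · simp only [h, dif_pos]
        exact hM1 _
      · simp only [h, dif_neg, not_false_eq_true]
        refine ⟨bot_le, ?_⟩
        intro v
        have : nb (⊥ : SimpleGraph V) v = ∅ := by
          ext z
          rw [mem_nb]
          simp
        rw [this]
        simp
    · intro i v v' hv
      by_cases h : i < Dt t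
      · simp only [h, dif_pos] at hv
        exact hM2 _ v v' hv
      · simp only [h, dif_neg, not_false_eq_true] at hv
        exact absurd hv (by simp)
    · intro i j hij v v' hv hv'
      by_cases h : i < Dt t
      · by_cases h' : j < Dt t
        · simp only [h, h', dif_pos] at hv hv'
          exact hM3 ⟨i, h⟩ ⟨j, h'⟩ (fun h3 => hij (Fin.mk.injEq .. ▸ h3)) v v' hv hv'
        · simp only [h', dif_neg, not_false_eq_true] at hv'
          exact absurd hv' (by simp)
      · simp only [h, dif_neg, not_false_eq_true] at hv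
        exact absurd hv (by simp)
    · intro i h v hv hv'
      simp only [h, dif_pos]
      exact hM4 ⟨i, h⟩ v hv hv'
  choose MM h3 using hex
  exact combine hl τ MM (fun a y t i => (h3 a y t).1 i)
    (fun a y t i v v' h => (h3 a y t).2.1 i v v' h)
    (fun a y t i j hij v v' h => (h3 a y t).2.2.1 i j hij v v' h)
    (fun a y t i hi v hv hv' => (h3 a y t).2.2.2 i hi v hv hv')

end Pool.Agent.Work.MP_db9399_lh.helper22
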